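import Pool.Agent.H679R2.Mix.Final

/-!
# `k`-COLOUR-MIXING is PSPACE-complete for every fixed k ≥ 4
-/

namespace Pool.Agent.Results.MP_8006ab_lc.MixingPSPACE

open Pool.Agent.NPC

/-- For every fixed `k ≥ 4`, the problem `k`-COLOUR-MIXING (is the `k`-colouring graph of the input
graph connected?) is complete for `PSPACE` under polynomial-time many-one reductions. -/
theorem result : ∀ k : ℕ, 4 ≤ k →
    Pool.Agent.H623R2.PS.PSPACEComplete (lang (Mix.COLOUR_MIXING k)) :=
  fun _ hk => Mix.complete hk

end Pool.Agent.Results.MP_8006ab_lc.MixingPSPACE
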